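import Pool.Agent.Helper47.EP.Goals

/-!
# Project EP (MP_5b9a11_al), packet EP-CNT: the multiplicity is at least the rank
-/

set_option autoImplicit false

namespace Pool.Agent.Helper63.EP.CNT

open MonoidAlgebra IsLocalRing Pool.Agent.Helper17.PF

section

variable {𝒪 : Type} [CommRing 𝒪] [IsLocalRing 𝒪] [IsAdicComplete (maximalIdeal 𝒪) 𝒪]
  {L : Type} [Group L] [Finite L]

/-- There is a decomposition of a nonzero idempotent `i` into primitive idempotents. -/
lemma exists_decomp' (i : MonoidAlgebra 𝒪 L) (hi : i * i = i) (hi0 : i ≠ 0) :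
    ∃ s : Finset (MonoidAlgebra 𝒪 L), (∀ e ∈ s, IsPrim e) ∧
    (∀ e ∈ s, ∀ f ∈ s, e ≠ f → e * f = 0) ∧ ∑ e ∈ s, e = i := by
  classical
  have : Fintype L := Fintype.ofFinite L
  let P : Finset (MonoidAlgebra 𝒪 L) → Prop := fun s =>
    (∀ e ∈ s, e * e = e ∧ e ≠ 0) ∧ (∀ e ∈ s, ∀ f ∈ s, e ≠ f → e * f = 0) ∧ ∑ e ∈ s, e = i
  have hbound : ∀ s, P s → s.card ≤
      Module.finrank (ResidueField 𝒪) (MonoidAlgebra (ResidueField 𝒪) L) := by
    rintro s ⟨h1, h2, h3⟩
    have hli : LinearIndependent (ResidueField 𝒪) (fun e : s => red 𝒪 L e.1) := by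
      rw [Fintype.linearIndependent_iff]
      intro c hc e
      have h4 := congrArg (fun z => z * red 𝒪 L e.1) hc
      simp only [Finset.sum_mul, zero_mul, smul_mul_assoc, ← map_mul] at h4
      rw [Finset.sum_eq_single e] at h4
      · rw [(h1 e.1 e.2).1] at h4
        rcases smul_eq_zero.1 h4 with h | h
        · exact h
        · exact absurd (idem_zero (h1 e.1 e.2).1 h) (h1 e.1 e.2).2
      · intro f _ hf
        rw [h2 f.1 f.2 e.1 e.2 (fun h => hf (Subtype.ext h)), map_zero, smul_zero]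
      · simp
    have := hli.fintype_card_le_finrank
    simpa using this
  have hne : ∃ n, ∃ s, P s ∧ s.card = n := by
    refine ⟨1, {i}, ⟨?_, ?_, ?_⟩, by simp⟩
    · intro e he
      rw [Finset.mem_singleton] at he
      subst he
      exact ⟨hi, hi0⟩
    · intro e he f hf hef
      rw [Finset.mem_singleton] at he hf
      exact absurd (he.trans hf.symm) hef
    · simp
  let N := Module.finrank (ResidueField 𝒪) (MonoidAlgebra (ResidueField 𝒪) L)
  obtain ⟨n, ⟨s, hs, hn⟩, hmax⟩ : ∃ n, (∃ s, P s ∧ s.card = n) ∧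
      ∀ m, (∃ s, P s ∧ s.card = m) → m ≤ n := by
    have hb : ∀ m, (∃ s, P s ∧ s.card = m) → m ≤ N := by
      rintro m ⟨s, hs, rfl⟩
      exact hbound s hs
    obtain ⟨n, hn⟩ := hne
    have h5 := Nat.findGreatest_spec (P := fun m => ∃ s, P s ∧ s.card = m) (hb n hn) hn
    refine ⟨_, h5, fun m hm => ?_⟩
    exact Nat.le_findGreatest (hb m hm) hm
  refine ⟨s, ?_, hs.2.1, hs.2.2⟩
  intro e he
  obtain ⟨h1, h2, h3⟩ := hs
  refine ⟨(h1 e he).1, (h1 e he).2, ?_⟩
  intro f hf hef hfe
  by_contra hcon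
  push Not at hcon
  have hg : (e - f) * (e - f) = e - f := by
    rw [mul_sub, sub_mul, sub_mul, (h1 e he).1, hef, hfe, hf]; abel
  have hg0 : e - f ≠ 0 := fun h => hcon.2 (sub_eq_zero.1 h).symm
  have hfg : f * (e - f) = 0 := by rw [mul_sub, hfe, hf, sub_self]
  have hgf : (e - f) * f = 0 := by rw [sub_mul, hef, hf, sub_self]
  have hforth : ∀ c ∈ s, c ≠ e → c * f = 0 ∧ f * c = 0 := by
    intro c hc hce
    constructor
    · rw [← hef, ← mul_assoc, h2 c hc e he hce, zero_mul]
    · rw [← hfe, mul_assoc, h2 e he c hc hce.symm, mul_zero]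
  have hgorth : ∀ c ∈ s, c ≠ e → c * (e - f) = 0 ∧ (e - f) * c = 0 := by
    intro c hc hce
    constructor
    · rw [mul_sub, h2 c hc e he hce, (hforth c hc hce).1, sub_self]
    · rw [sub_mul, h2 e he c hc hce.symm, (hforth c hc hce).2, sub_self]
  have hfs : f ∉ s.erase e := by
    intro h
    rw [Finset.mem_erase] at h
    have := (hforth f h.2 h.1).1
    rw [hf] at this
    exact hcon.1 this
  have hgs : (e - f) ∉ insert f (s.erase e) := by
    intro h
    rw [Finset.mem_insert] at h
    rcases h with h | h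
    · rw [h, hf] at hfg
      exact hcon.1 hfg
    · rw [Finset.mem_erase] at h
      have := (hgorth _ h.2 h.1).1
      rw [hg] at this
      exact hg0 this
  have hcard : (insert (e - f) (insert f (s.erase e))).card = n + 1 := by
    rw [Finset.card_insert_of_notMem hgs, Finset.card_insert_of_notMem hfs,
      Finset.card_erase_of_mem he, hn]
    have : 0 < s.card := Finset.card_pos.2 ⟨e, he⟩
    omega
  have := hmax (n + 1) ⟨_, ⟨?_, ?_, ?_⟩, hcard⟩
  · omega
  · intro c hc
    rw [Finset.mem_insert, Finset.mem_insert, Finset.mem_erase] at hc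
    rcases hc with rfl | rfl | ⟨_, hc⟩
    · exact ⟨hg, hg0⟩
    · exact ⟨hf, hcon.1⟩
    · exact h1 c hc
  · intro c hc d hd hcd
    rw [Finset.mem_insert, Finset.mem_insert, Finset.mem_erase] at hc hd
    rcases hc with rfl | rfl | ⟨hce, hc⟩
    · rcases hd with rfl | rfl | ⟨hde, hd⟩
      · exact absurd rfl hcd
      · exact hgf
      · exact (hgorth d hd hde).2
    · rcases hd with rfl | rfl | ⟨hde, hd⟩
      · exact hfg
      · exact absurd rfl hcd
      · exact (hforth d hd hde).2
    · rcases hd with rfl | rfl | ⟨hde, hd⟩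
      · exact (hgorth c hc hce).1
      · exact (hforth c hc hce).1
      · exact h2 c hc d hd hcd
  · rw [Finset.sum_insert hgs, Finset.sum_insert hfs]
    have h6 := Finset.add_sum_erase s (fun x => x) he
    rw [h3] at h6
    rw [← add_assoc, sub_add_cancel]
    exact h6

end

/-- the rank of a sum -/
lemma rank_sum_le {k V ι : Type*} [Field k] [AddCommGroup V] [Module k V] [FiniteDimensional k V]
    (A : ι → Module.End k V) (t : Finset ι)
    (h : ∀ i ∈ t, Module.finrank k (LinearMap.range (A i)) ≤ 1) :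
    Module.finrank k (LinearMap.range (∑ i ∈ t, A i)) ≤ t.card := by
  classical
  induction t using Finset.induction_on with
  | empty =>
    rw [Finset.sum_empty, Finset.card_empty]
    have : LinearMap.range (0 : Module.End k V) = ⊥ := LinearMap.range_zero
    rw [this, finrank_bot]
  | insert a t ha ih =>
    rw [Finset.sum_insert ha, Finset.card_insert_of_notMem ha]
    have h3 : LinearMap.range (A a + ∑ i ∈ t, A i) ≤
        LinearMap.range (A a) ⊔ LinearMap.range (∑ i ∈ t, A i) := by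
      rintro _ ⟨v, rfl⟩
      rw [LinearMap.add_apply]
      exact Submodule.add_mem_sup ⟨v, rfl⟩ ⟨v, rfl⟩
    have h4 := ih fun i hi => h i (Finset.mem_insert_of_mem hi)
    have h5 := h a (Finset.mem_insert_self _ _)
    calc _ ≤ Module.finrank k ↥(LinearMap.range (A a) ⊔ LinearMap.range (∑ i ∈ t, A i)) :=
          Submodule.finrank_mono h3
      _ ≤ _ := Submodule.finrank_add_le_finrank_add_finrank _ _
      _ ≤ 1 + t.card := Nat.add_le_add h5 h4
      _ = t.card + 1 := Nat.add_comm _ _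

lemma mem_fp {𝒪 : Type} [CommRing 𝒪] {G : Type} [Group G] {b x : MonoidAlgebra 𝒪 G}
    (h : x * b = x) : x ∈ fixedPoints b (⊥ : Subgroup G) := by
  refine ⟨h, fun u hu => ?_⟩
  rw [Subgroup.mem_bot] at hu
  subst hu
  rw [inv_one, ← one_def, one_mul, mul_one]

theorem t : Pool.Agent.Helper47.EP.S_CNT := by
  intro 𝒪 _ _ _ G _ _ b i hb hi hi0 hib n ρ hρ hn
  classical
  obtain ⟨s, hs1, hs2, hs3⟩ := exists_decomp' i hi hi0
  have hbc : ∀ x : MonoidAlgebra 𝒪 G, b * x = x * b := fun x =>
    ((Set.mem_center_iff.1 hb.1).comm x).eq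
  have hbb : b * b = b := hb.2.1
  have hei : ∀ e ∈ s, e * i = e := by
    intro e he
    rw [← hs3, Finset.mul_sum, Finset.sum_eq_single e]
    · exact (hs1 e he).idem
    · intro f hf hfe
      exact hs2 e he f hf hfe.symm
    · intro h
      exact absurd he h
  have heb : ∀ e ∈ s, e * b = e := by
    intro e he
    calc e * b = e * i * b := by rw [hei e he]
      _ = e * (i * b) := mul_assoc _ _ _
      _ = e := by rw [hib, hei e he]
  have hρe : ∀ e ∈ s, ρ (red 𝒪 G e) ≠ 0 := fun e he h =>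
    (hs1 e he).ne (hn e (hs1 e he).idem (heb e he) h)
  obtain ⟨e₀, he₀⟩ : s.Nonempty := by
    rw [Finset.nonempty_iff_ne_empty]
    intro h
    rw [h, Finset.sum_empty] at hs3
    exact hi0 hs3.symm
  refine ⟨s, e₀, he₀, ?_, hs2, hs3, ?_, ?_⟩
  · intro e he
    exact ⟨mem_fp (heb e he), (hs1 e he).idem, (hs1 e he).ne,
      fun f _ h1 h2 h3 => (hs1 e he).prim f h1 h2 h3⟩
  · intro e he
    by_cases hee : e = e₀
    · refine ⟨b, mem_fp hbb, b, mem_fp hbb, hbb, hbb, ?_⟩
      rw [hee, hbc, heb e₀ he₀, heb e₀ he₀]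
    · obtain ⟨x, y, h1, h2, h3, h4, h5, h6⟩ := link ρ hρ (hs1 e he) (hs1 e₀ he₀) (hρe e he)
        (hρe e₀ he₀)
      obtain ⟨u, hu1, hu2⟩ := conj_of_link (hs1 e he).idem (hs1 e₀ he₀).idem
        (hs2 e he e₀ he₀ hee) (hs2 e₀ he₀ e he (fun h => hee h.symm)) h1 h2 h3 h4 h5 h6
      have hub : u * b * b = u * b := by rw [mul_assoc, hbb]
      have huu : u * b * (u * b) = b := by
        calc u * b * (u * b) = u * (b * u) * b := by simp only [mul_assoc]
          _ = (u * u) * (b * b) := by rw [hbc]; simp only [mul_assoc]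
          _ = b := by rw [hu1, hbb, one_mul]
      refine ⟨u * b, mem_fp hub, u * b, mem_fp hub, huu, huu, ?_⟩
      calc e = e * b := (heb e he).symm
        _ = u * e₀ * u * b := by rw [← hu2]
        _ = u * (e₀ * b) * u * b := by rw [heb e₀ he₀]
        _ = u * (b * e₀) * u * b := by rw [hbc]
        _ = u * b * e₀ * (u * b) := by simp only [mul_assoc]
  · rw [← hs3, map_sum, map_sum]
    refine rank_sum_le (fun e => ρ (red 𝒪 G e)) s fun e he => ?_
    exact (prim_red (hs1 e he)).finrank_range_le_one ρ hρ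

end Pool.Agent.Helper63.EP.CNT
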